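import Pool.Agent.Helper97.HG.Cnt

/-!
# HG, block G2, part 4: the primes of the field of a root
-/

set_option autoImplicit false

namespace Pool.Agent.HG

open Polynomial NumberField IsDedekindDomain
open scoped Pointwise IntermediateField

section emb

variable {k L : Type} [Field k] [NumberField k] [Field L] [NumberField L] [Algebra k L]

theorem exists_emb {θ ρ : L} (h : minpoly k ρ = minpoly k θ) :
    ∃ e : k⟮θ⟯ →ₐ[k] L, e (IntermediateField.AdjoinSimple.gen k θ) = ρ := by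
  have hint : IsIntegral k θ := Algebra.IsIntegral.isIntegral θ
  refine ⟨(IntermediateField.algHomAdjoinIntegralEquiv k hint).symm ⟨ρ, ?_⟩,
    IntermediateField.algHomAdjoinIntegralEquiv_symm_apply_gen k hint _⟩
  rw [mem_aroots]
  refine ⟨minpoly.ne_zero hint, ?_⟩
  rw [← h, minpoly.aeval]

theorem emb_ext {θ : L} {e e' : k⟮θ⟯ →ₐ[k] L}
    (h : e (IntermediateField.AdjoinSimple.gen k θ) = e' (IntermediateField.AdjoinSimple.gen k θ)) :
    e = e' := by
  apply IntermediateField.adjoin_algHom_ext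
  intro x hx
  have hx' : x = θ := hx
  subst hx'
  exact h

end emb

namespace Ctx

variable {k L : Type} [Field k] [NumberField k] [Field L] [NumberField L] [Algebra k L]
  [IsGalois k L] {f : k[X]} (X : Ctx k L f)

theorem F_mem_Ω (v : Pr k) {θ : L} (h : θ ∈ X.Ω) : X.F v θ ∈ X.Ω := by
  rw [mem_Ω] at h ⊢
  rw [mem_rootSet] at h ⊢
  refine ⟨h.1, ?_⟩
  have := aeval_algHom_apply (X.F v : L →ₐ[k] L) θ f
  rw [h.2, map_zero] at this
  exact this

theorem iter_mem_Ω (v : Pr k) {θ : L} (h : θ ∈ X.Ω) (i : ℕ) : (X.F v)^[i] θ ∈ X.Ω := by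
  induction i with
  | zero => exact h
  | succ i ih =>
    rw [Function.iterate_succ_apply']
    exact X.F_mem_Ω v ih

theorem finite_order (v : Pr k) (θ : L) : ∃ n : ℕ, 0 < n ∧ (X.F v)^[n] θ = θ := by
  refine ⟨orderOf (X.F v), orderOf_pos _, ?_⟩
  have h1 : ∀ (n : ℕ) (z : L), (X.F v ^ n) z = (X.F v)^[n] z := by
    intro n z
    induction n with
    | zero => simp
    | succ n ih => rw [Function.iterate_succ_apply', pow_succ', AlgEquiv.mul_apply, ih]
  rw [← h1, pow_orderOf_eq_one]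
  rfl

theorem len_pos97 (v : Pr k) (θ : L) : 0 < X.len v θ := by
  obtain ⟨n, hn, h⟩ := X.finite_order v θ
  exact Function.minimalPeriod_pos_of_mem_periodicPts ⟨n, hn, h⟩

theorem iter_len (v : Pr k) (θ : L) : (X.F v)^[X.len v θ] θ = θ :=
  Function.isPeriodicPt_minimalPeriod _ _

theorem len_le (v : Pr k) {θ : L} (h : θ ∈ X.Ω) : X.len v θ ≤ X.Ω.card := by
  classical
  have h1 := Finset.card_le_card_of_injOn (s := Finset.range (X.len v θ)) (t := X.Ω)
    (fun i => (X.F v)^[i] θ) (fun i _ => X.iter_mem_Ω v h i) (by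
      intro i hi j hj hij
      have hi' : i < X.len v θ := Finset.mem_range.1 hi
      have hj' : j < X.len v θ := Finset.mem_range.1 hj
      exact Function.iterate_injOn_Iio_minimalPeriod hi' hj' hij)
  rwa [Finset.card_range] at h1

/-- the representative lies in the orbit -/
theorem rep_eq (v : Pr k) (θ : L) : ∃ i : ℕ, X.rep v θ = (X.F v)^[i] θ := by
  have h1 : (MulAction.orbitRel (Subgroup.zpowers (X.F v)) L).r (X.rep v θ) θ :=
    Quotient.exact (Quotient.out_eq _)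
  have h2 : X.rep v θ ∈ MulAction.orbit (Subgroup.zpowers (X.F v)) θ := h1
  obtain ⟨⟨g, hg⟩, h3⟩ := h2
  have hfin : IsOfFinOrder (X.F v) := isOfFinOrder_of_finite _
  have hg' : g ∈ (Submonoid.powers (X.F v) : Set (L ≃ₐ[k] L)) := by
    rw [hfin.powers_eq_zpowers]
    exact hg
  obtain ⟨i, rfl⟩ := hg'
  refine ⟨i, ?_⟩
  rw [← h3]
  have h1 : ∀ (n : ℕ) (z : L), (X.F v ^ n) z = (X.F v)^[n] z := by
    intro n z
    induction n with
    | zero => simp
    | succ n ih => rw [Function.iterate_succ_apply', pow_succ', AlgEquiv.mul_apply, ih]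
  exact h1 i θ

theorem rep_iter (v : Pr k) (θ : L) (i : ℕ) : X.rep v ((X.F v)^[i] θ) = X.rep v θ := by
  unfold rep
  congr 1
  apply Quotient.sound
  have h1 : ∀ (n : ℕ) (z : L), (X.F v ^ n) z = (X.F v)^[n] z := by
    intro n z
    induction n with
    | zero => simp
    | succ n ih => rw [Function.iterate_succ_apply', pow_succ', AlgEquiv.mul_apply, ih]
  have : (X.F v)^[i] θ ∈ MulAction.orbit (Subgroup.zpowers (X.F v)) θ :=
    ⟨⟨X.F v ^ i, i, by simp⟩, h1 i θ⟩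
  exact this

theorem R_sub (v : Pr k) {ρ : L} (h : ρ ∈ X.R v) : ρ ∈ X.Ω := by
  classical
  obtain ⟨θ, hθ, rfl⟩ := Finset.mem_image.1 h
  obtain ⟨i, hi⟩ := X.rep_eq v θ
  rw [hi]
  exact X.iter_mem_Ω v hθ i

theorem R_card (v : Pr k) : (X.R v).card ≤ X.Ω.card := by
  classical
  exact Finset.card_image_le

theorem rep_of_R (v : Pr k) {ρ : L} (h : ρ ∈ X.R v) : X.rep v ρ = ρ := by
  classical
  obtain ⟨θ, hθ, rfl⟩ := Finset.mem_image.1 h
  obtain ⟨i, hi⟩ := X.rep_eq v θ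
  conv_lhs => rw [hi]
  exact X.rep_iter v θ i

theorem R_inj (v : Pr k) {ρ ρ' : L} (h : ρ ∈ X.R v) (h' : ρ' ∈ X.R v) (i : ℕ)
    (hi : ρ' = (X.F v)^[i] ρ) : ρ = ρ' := by
  rw [← X.rep_of_R v h, ← X.rep_of_R v h', hi, X.rep_iter]

theorem exOver {v : Pr k} (hv : Gd X.M v) : ∃ p : ℕ, Over X.M p v (X.P v) := by
  obtain ⟨p, hp, hpM, hpv⟩ := hv
  exact ⟨p, hp, hpM, hpv, X.comap v⟩

theorem eq_of_lt {v : Pr k} (hv : Gd X.M v) {ρ ρ' : L} (h : ρ ∈ X.Ω) (h' : ρ' ∈ X.Ω)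
    (hlt : (X.P v).valuation L (ρ - ρ') < 1) : ρ = ρ' := by
  by_contra hne
  obtain ⟨p, hp⟩ := X.exOver hv
  have := X.sep p v (X.P v) hp ρ ((X.mem_Ω _).1 h) ρ' ((X.mem_Ω _).1 h') hne
  rw [this] at hlt
  exact lt_irrefl _ hlt

theorem val_root {v : Pr k} (hv : Gd X.M v) {ρ : L} (h : ρ ∈ X.Ω) : (X.P v).valuation L ρ ≤ 1 := by
  obtain ⟨p, hp⟩ := X.exOver hv
  exact X.int p v (X.P v) hp ρ ((X.mem_Ω _).1 h)

variable {θ : L}

/-- different roots which represent different orbits give different primes -/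
theorem pull_inj {v : Pr k} (hv : Gd X.M v) (e e' : k⟮θ⟯ →ₐ[k] L) {ρ ρ' : L}
    (he : e (IntermediateField.AdjoinSimple.gen k θ) = ρ)
    (he' : e' (IntermediateField.AdjoinSimple.gen k θ) = ρ')
    (hρ : ρ ∈ X.R v) (hρ' : ρ' ∈ X.R v)
    (h : pull (e : k⟮θ⟯ →+* L) (X.P v) = pull (e' : k⟮θ⟯ →+* L) (X.P v)) : ρ = ρ' := by
  obtain ⟨i, hi⟩ := pull_eq (X.comap v) (X.stab v) (X.frob v) e e' h
  have h1 : (pull (e : k⟮θ⟯ →+* L) (X.P v)).valuation k⟮θ⟯
      (IntermediateField.AdjoinSimple.gen k θ) ≤ 1 := by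
    rw [pull_le_iff]
    change (X.P v).valuation L (e _) ≤ 1
    rw [he]
    exact X.val_root hv (X.R_sub v hρ)
  have h2 := hi _ h1
  rw [he, he'] at h2
  exact X.R_inj v hρ hρ' i (X.eq_of_lt hv (X.R_sub v hρ') (X.iter_mem_Ω v (X.R_sub v hρ) i) h2)

theorem nm_pull' {v : Pr k} (hv : Gd X.M v) (e : k⟮θ⟯ →ₐ[k] L) {ρ : L}
    (he : e (IntermediateField.AdjoinSimple.gen k θ) = ρ) (hρ : ρ ∈ X.Ω) :
    nm (pull (e : k⟮θ⟯ →+* L) (X.P v)) = nm v ^ X.len v ρ := by
  refine nm_pull (X.comap v) (X.stab v) (X.frob v) e _ ?_ ?_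
  · have h1 : ∀ (n : ℕ) (z : L), (X.F v ^ n) z = (X.F v)^[n] z := by
      intro n z
      induction n with
      | zero => simp
      | succ n ih => rw [Function.iterate_succ_apply', pow_succ', AlgEquiv.mul_apply, ih]
    have h2 : ((X.F v ^ X.len v ρ : L ≃ₐ[k] L) : L →ₐ[k] L).comp e = e := by
      apply emb_ext
      rw [AlgHom.comp_apply, he]
      exact (h1 _ _).trans (X.iter_len v ρ)
    intro z
    rw [← h1]
    exact DFunLike.congr_fun h2 z
  · intro i hi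
    apply Function.IsPeriodicPt.minimalPeriod_dvd
    have h1 : (pull (e : k⟮θ⟯ →+* L) (X.P v)).valuation k⟮θ⟯
        (IntermediateField.AdjoinSimple.gen k θ) ≤ 1 := by
      rw [pull_le_iff]
      change (X.P v).valuation L (e _) ≤ 1
      rw [he]
      exact X.val_root hv hρ
    have h2 := hi _ h1
    rw [he] at h2
    exact X.eq_of_lt hv (X.iter_mem_Ω v hρ i) hρ h2

theorem odd_nm {v : Pr k} (hv : Gd X.M v) : Odd (nm v) := by
  obtain ⟨p, hp, hpM, hpv⟩ := hv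
  obtain ⟨g, hg, he⟩ := nm_pow97 hp hpv
  rw [he]
  refine Odd.pow (hp.odd_of_ne_two ?_)
  rintro rfl
  exact hpM X.two

end Ctx

end Pool.Agent.HG
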