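import Pool.Agent.Helper97.HG.G2

/-!
# HG, block G2: the theorem
-/

set_option autoImplicit false

namespace Pool.Agent.HG

open Polynomial NumberField IsDedekindDomain
open scoped Pointwise IntermediateField

/-- **BLOCK G2** -/
theorem g2 : StmtG2 := by
  intro hBTL _ k L _ _ _ _ _ _ f X hm hfin g ε hε
  classical
  -- one root for every class
  have hθ : ∀ j : Fin X.m, ∃ θ ∈ X.Ω, minpoly k θ = (X.cls.equivFin.symm j).1 := by
    intro j
    obtain ⟨θ, hθ, h⟩ := Finset.mem_image.1 (X.cls.equivFin.symm j).2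
    exact ⟨θ, hθ, h⟩
  choose θ hθ hθj using hθ
  have hcmp : ∀ ρ ∈ X.Ω, ∀ j, X.cmp hm ρ = j → minpoly k ρ = minpoly k (θ j) := by
    intro ρ hρ j hj
    have h1 : minpoly k ρ ∈ X.cls := Finset.mem_image_of_mem _ hρ
    have h2 : X.cls.equivFin ⟨minpoly k ρ, h1⟩ = j := by
      rw [← hj]
      have h3 : X.cmp hm ρ = X.cls.equivFin ⟨minpoly k ρ, h1⟩ := by
        unfold Ctx.cmp
        exact dif_pos h1
      exact h3.symm
    rw [hθj, ← h2, Equiv.symm_apply_apply]
  have hB := fun j => hBTL k⟮θ j⟯ X.K X.hK ε hε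
  choose C A h₀ hC hB using hB
  set N := X.Ω.card with hN
  set n := Module.finrank ℚ k with hn
  obtain ⟨κ, hκ⟩ := exists_nat_gt (X.K ^ 2)
  set A' : ℕ := N ^ 2 * (∑ j, A j) + 4 * N with hA'
  set H : ℕ := (∑ j, h₀ j) + κ + 3 with hH
  set G : ℕ → ℝ := fun h => (h : ℝ) / Real.log h ^ (1 - ε) with hG
  have hGpos : ∀ h : ℕ, 2 ≤ h → 0 < G h := by
    intro h hh
    have hh' : (2 : ℝ) ≤ h := by exact_mod_cast hh
    have h1 : 0 < Real.log h := Real.log_pos (by linarith)
    exact div_pos (by linarith) (Real.rpow_pos_of_pos h1 _)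
  set C₁ : ℝ := ∑ h ∈ (Finset.range H).filter (2 ≤ ·), (n : ℝ) * h * h / G h with hC₁
  have hC₁0 : ∀ h ∈ (Finset.range H).filter (2 ≤ ·), 0 ≤ (n : ℝ) * h * h / G h := by
    intro h hh
    have := hGpos h (Finset.mem_filter.1 hh).2
    positivity
  refine ⟨n * ∑ j, C j + n * 4 + C₁ + 1, A', ?_, ?_⟩
  · have h1 : 0 ≤ ∑ j, C j := Finset.sum_nonneg fun j _ => (hC j).le
    have h2 : 0 ≤ C₁ := Finset.sum_nonneg hC₁0
    positivity
  intro j (m : Finset (Pr k)) hmEx (τ : Pr k → L × ℤˣ) hτ (t : Pr k → L → ℤˣ) h hh hNm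
    (S : Finset (Pr k)) hS
  have hh' : (2 : ℝ) ≤ h := by exact_mod_cast hh
  have h0 : (0 : ℝ) < h := by linarith
  have hmGd : ∀ p ∈ m, Gd X.M p := by
    intro p hp
    by_contra h1
    exact hmEx p hp (hfin.mem_toFinset.2 h1)
  let I : Pr k → Finset L := fun p => (X.cd hm hfin g).I p (τ p) j
  have hI : ∀ p ∈ m, ∀ ρ ∈ I p, ρ ∈ X.R p ∧ minpoly k ρ = minpoly k (θ j) := by
    intro p hp ρ hρ
    have h1 := Finset.mem_filter.1 (Finset.mem_of_mem_erase hρ)
    exact ⟨h1.1, hcmp ρ (X.R_sub p h1.1) j h1.2⟩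
  set w : ℝ := ∏ p ∈ m, (1 / 2 : ℝ) ^ (I p).card with hw
  have hGd' : (S.card : ℝ) ≤ (n * ∑ j, C j + n * 4 + C₁ + 1) * (w * G h) := by
    have hNm' : (∏ p ∈ m, nm p) ^ A' ≤ h := hNm
    have hm1 : 1 ≤ ∏ p ∈ m, nm p := Finset.one_le_prod' fun p _ => (nm_two p).trans' one_le_two
    -- the lower bound of `w`
    have hw0 : (h : ℝ) ^ (-(1 / 4) : ℝ) ≤ w := by
      have h1 : ((∏ p ∈ m, nm p : ℕ) : ℝ) ^ N ≤ (h : ℝ) ^ (1 / 4 : ℝ) := by
        have h2 : (∏ p ∈ m, nm p) ^ (4 * N) ≤ h :=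
          (Nat.pow_le_pow_right hm1 (by omega)).trans hNm'
        have h3 : (((∏ p ∈ m, nm p : ℕ) : ℝ) ^ N) ^ 4 ≤ h := by
          rw [← pow_mul, mul_comm N 4]
          exact_mod_cast h2
        have h4 : ((((∏ p ∈ m, nm p : ℕ) : ℝ) ^ N) ^ 4) ^ (1 / 4 : ℝ) ≤ (h : ℝ) ^ (1 / 4 : ℝ) :=
          Real.rpow_le_rpow (by positivity) h3 (by norm_num)
        rwa [← Real.rpow_natCast (((∏ p ∈ m, nm p : ℕ) : ℝ) ^ N) 4, ← Real.rpow_mul (by positivity),
          show ((4 : ℕ) : ℝ) * (1 / 4) = 1 by norm_num, Real.rpow_one] at h4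
      have h5 : (((∏ p ∈ m, nm p : ℕ) : ℝ) ^ N)⁻¹ ≤ w := by
        rw [hw, Nat.cast_prod, ← Finset.prod_pow, ← Finset.prod_inv_distrib]
        refine Finset.prod_le_prod (fun p _ => by positivity) fun p hp => ?_
        have h6 : (2 : ℝ) ≤ nm p := by exact_mod_cast nm_two p
        have h7 : (I p).card ≤ N :=
          (Finset.card_le_card fun ρ hρ => (hI p hp ρ hρ).1).trans (X.R_card p)
        calc ((nm p : ℝ) ^ N)⁻¹ ≤ ((2 : ℝ) ^ N)⁻¹ :=
              inv_anti₀ (by positivity) (pow_le_pow_left₀ (by norm_num) h6 N)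
          _ = (1 / 2 : ℝ) ^ N := by rw [one_div, inv_pow]
          _ ≤ (1 / 2 : ℝ) ^ (I p).card := pow_le_pow_of_le_one (by norm_num) (by norm_num) h7
      refine le_trans ?_ h5
      rw [Real.rpow_neg h0.le]
      exact inv_anti₀ (by positivity) h1
    have hwpos : 0 < w := (Real.rpow_pos_of_pos h0 _).trans_le hw0
    have hwG : 0 < w * G h := mul_pos hwpos (hGpos h hh)
    have hSC : C j ≤ ∑ j, C j := Finset.single_le_sum (fun j _ => (hC j).le) (Finset.mem_univ j)
    have hSC0 : 0 ≤ ∑ j, C j := (hC j).le.trans hSC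
    have hC₁pos : 0 ≤ C₁ := Finset.sum_nonneg hC₁0
    by_cases hhH : h < H
    · -- small `h`
      have h1 : (S.card : ℝ) ≤ n * h := by
        exact_mod_cast card_all S h fun Q hQ => (hS Q hQ).2.2.1
      have h2 : (n : ℝ) * h * h / G h ≤ C₁ :=
        Finset.single_le_sum hC₁0 (Finset.mem_filter.2 ⟨Finset.mem_range.2 hhH, hh⟩)
      have h3 : (h : ℝ)⁻¹ ≤ w := by
        refine le_trans ?_ hw0
        rw [← Real.rpow_neg_one]
        exact Real.rpow_le_rpow_of_exponent_le (by linarith) (by norm_num)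
      have h4 : (n : ℝ) * h ≤ C₁ * (w * G h) := by
        calc (n : ℝ) * h = (n : ℝ) * h * h / G h * ((h : ℝ)⁻¹ * G h) := by
              have := (hGpos h hh).ne'
              field_simp
          _ ≤ C₁ * (w * G h) :=
              mul_le_mul h2 (mul_le_mul_of_nonneg_right h3 (hGpos h hh).le)
                (mul_nonneg (by positivity) (hGpos h hh).le) hC₁pos
      have h5 : 0 ≤ (n * ∑ j, C j + n * 4 + 1) * (w * G h) := by positivity
      linarith
    · -- large `h`
      rw [not_lt] at hhH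
      have hA1 : A j ≤ ∑ j, A j := Finset.single_le_sum (fun _ _ => Nat.zero_le _) (Finset.mem_univ j)
      have hh1 : h₀ j ≤ ∑ j, h₀ j :=
        Finset.single_le_sum (fun _ _ => Nat.zero_le _) (Finset.mem_univ j)
      let S₂ := S.filter fun Q => (nm Q).Prime ∧ h ≤ nm Q ^ 2
      let S₁ := S.filter fun Q => ¬ ((nm Q).Prime ∧ h ≤ nm Q ^ 2)
      have hcard : S.card = S₂.card + S₁.card := (Finset.card_filter_add_card_filter_not _).symm
      have e1 : (S₁.card : ℝ) ≤ n * (Nat.sqrt h : ℝ) := by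
        have := card_small S₁ h (fun Q hQ => (hS Q (Finset.mem_filter.1 hQ).1).2.2.1)
          (fun Q hQ hp => by
            by_contra h'
            exact (Finset.mem_filter.1 hQ).2 ⟨hp, not_lt.1 h'⟩)
        exact_mod_cast this
      have e2 : (S₂.card : ℝ) ≤ n * (C j * w * G h) := by
        refine main_est X (hθ j) (hB j h (by omega)) ?_ m hmGd I hI t ?_ S₂ ?_
        · refine hκ.trans_le ?_
          have : κ ≤ h := by omega
          exact_mod_cast this
        · refine (Nat.pow_le_pow_right hm1 ?_).trans hNm'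
          have : N ^ 2 * A j ≤ N ^ 2 * ∑ j, A j := Nat.mul_le_mul_left _ hA1
          exact this.trans (Nat.le_add_right _ _)
        · intro Q hQ
          obtain ⟨hQS, hQp, hQh⟩ := Finset.mem_filter.1 hQ
          obtain ⟨a1, a2, a3, ⟨o, s⟩, a4, a5, a6⟩ := hS Q hQS
          have a4' : o ∈ X.Fx Q := (Finset.mem_product.1 a4).1
          refine ⟨?_, a2, a3, hQp, hQh, o, a4', ?_, a6⟩
          · by_contra h1
            exact a1 (hfin.mem_toFinset.2 h1)
          · exact hcmp o (Finset.mem_filter.1 a4').1 j a5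
      have e3 := wt_le (h := h) (by omega) hε hw0
      have e4 : (n : ℝ) * (Nat.sqrt h : ℝ) ≤ n * 4 * (w * G h) := by
        rw [mul_assoc]
        exact mul_le_mul_of_nonneg_left e3 (Nat.cast_nonneg _)
      have e5 : (n : ℝ) * (C j * w * G h) ≤ n * (∑ j, C j) * (w * G h) := by
        have : (n : ℝ) * (C j * w * G h) = n * C j * (w * G h) := by ring
        rw [this]
        exact mul_le_mul_of_nonneg_right (mul_le_mul_of_nonneg_left hSC (Nat.cast_nonneg _)) hwG.le
      have e6 : 0 ≤ (C₁ + 1) * (w * G h) := by positivity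
      have e7 : (S.card : ℝ) = S₂.card + S₁.card := by exact_mod_cast hcard
      rw [e7]
      linarith
  rw [← mul_assoc] at hGd'
  exact hGd'

end Pool.Agent.HG
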