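import Pool.Agent.Helper97.HG.Emb

/-!
# HG, block G2: Brun-Titchmarsh for the counting problem
-/

set_option autoImplicit false

namespace Pool.Agent.HG

open Polynomial NumberField IsDedekindDomain
open scoped Pointwise IntermediateField

namespace Ctx

variable {k L : Type} [Field k] [NumberField k] [Field L] [NumberField L] [Algebra k L]
  [IsGalois k L] {f : k[X]} (X : Ctx k L f)

theorem exists_x {θ : L} (hθ : θ ∈ X.Ω) {Q : Pr k} (hQ : Gd X.M Q) {o : L}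
    (ho : o ∈ X.Fx Q) (hmin : minpoly k o = minpoly k θ) :
    ∃ x : 𝓞 k⟮θ⟯, (x : k⟮θ⟯) = aeval (IntermediateField.AdjoinSimple.gen k θ) (X.B Q o) ∧
      (∀ φ : k⟮θ⟯ →+* ℂ, ‖φ x‖ ≤ X.K * (nm Q : ℝ) ^ ((1 : ℝ) / Module.finrank ℚ k⟮θ⟯)) ∧
      (∃ a : ℕ, a ≠ 0 ∧ (a : ℝ) ≤ X.K ∧ Ideal.absNorm (Ideal.span {x}) = a * nm Q) ∧
      ∀ v : Pr k, Gd X.M v → v ≠ Q → ∀ e : k⟮θ⟯ →ₐ[k] L,
        x ∉ (pull (e : k⟮θ⟯ →+* L) (X.P v)).asIdeal := by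
  classical
  obtain ⟨ho1, ho2⟩ := Finset.mem_filter.1 ho
  obtain ⟨p, hp⟩ := X.exOver hQ
  have hT := X.thue p Q hp o ((X.mem_Ω o).1 ho1) ho2
  have hθ' := (X.mem_Ω θ).1 hθ
  have hint : IsIntegral k θ := Algebra.IsIntegral.isIntegral θ
  have hmap : algebraMap k⟮θ⟯ L (aeval (IntermediateField.AdjoinSimple.gen k θ) (X.B Q o)) =
      aeval θ (X.B Q o) := by
    rw [← aeval_algebraMap_apply, IntermediateField.AdjoinSimple.algebraMap_gen]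
  have hI : IsIntegral ℤ (aeval (IntermediateField.AdjoinSimple.gen k θ) (X.B Q o)) := by
    rw [← isIntegral_algebraMap_iff (algebraMap k⟮θ⟯ L).injective, hmap]
    exact hT.int θ hθ' hmin.symm
  obtain ⟨x, hx⟩ : ∃ x : 𝓞 k⟮θ⟯, (x : k⟮θ⟯) =
      aeval (IntermediateField.AdjoinSimple.gen k θ) (X.B Q o) := ⟨⟨_, hI⟩, rfl⟩
  refine ⟨x, hx, ?_, ?_, ?_⟩
  · intro φ
    rw [hx]
    let _ : Algebra k⟮θ⟯ ℂ := φ.toAlgebra
    let ψ : L →ₐ[k⟮θ⟯] ℂ := IsAlgClosed.lift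
    have h1 : φ (aeval (IntermediateField.AdjoinSimple.gen k θ) (X.B Q o)) =
        (ψ : L →+* ℂ) (aeval θ (X.B Q o)) := by
      rw [← hmap]
      exact (ψ.commutes _).symm
    have h2 := hT.small θ hθ' hmin.symm (ψ : L →+* ℂ)
    rw [← h1] at h2
    have h3 : Module.finrank ℚ k⟮θ⟯ = Module.finrank ℚ k * (minpoly k o).natDegree := by
      rw [hmin, ← IntermediateField.adjoin.finrank hint, Module.finrank_mul_finrank]
    rw [h3]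
    exact h2
  · obtain ⟨a, ha, haK, hn⟩ := hT.norm
    refine ⟨a, ha, haK, ?_⟩
    have h1 := hn θ hθ' hmin.symm
    rw [Ideal.absNorm_span_singleton]
    have h2 : ((Algebra.norm ℤ x : ℤ) : ℚ) = Algebra.norm ℚ (x : k⟮θ⟯) := Algebra.coe_norm_int x
    rw [← hx, ← h2] at h1
    have h3 : |(Algebra.norm ℤ x : ℤ)| = ((a * nm Q : ℕ) : ℤ) := by
      exact_mod_cast h1
    rw [Int.abs_eq_natAbs] at h3
    exact_mod_cast h3
  · intro v hv hvQ e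
    rw [mem_pull, ← val_int_one, RingOfIntegers.mapRingHom_apply, hx]
    obtain ⟨p', hp'⟩ := X.exOver hv
    have h1 : minpoly k (e (IntermediateField.AdjoinSimple.gen k θ)) = minpoly k θ := by
      rw [minpoly.algHom_eq e e.injective, IntermediateField.minpoly_gen]
    have h2 : e (IntermediateField.AdjoinSimple.gen k θ) ∈ f.rootSet L := by
      rw [mem_rootSet] at hθ' ⊢
      refine ⟨hθ'.1, ?_⟩
      rw [aeval_algHom_apply]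
      have h3 : aeval (IntermediateField.AdjoinSimple.gen k θ) f = 0 := by
        apply (algebraMap k⟮θ⟯ L).injective
        rw [← aeval_algebraMap_apply, IntermediateField.AdjoinSimple.algebraMap_gen, hθ'.2, map_zero]
      rw [h3, map_zero]
    have h3 := hT.unit p' v (X.P v) hp' hvQ _ h2 (h1.trans hmin.symm)
    rw [aeval_algHom_apply] at h3
    exact h3

theorem ch_iff {θ : L} {v : Pr k} (hv : Gd X.M v) (e : k⟮θ⟯ →ₐ[k] L) {ρ : L}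
    (he : e (IntermediateField.AdjoinSimple.gen k θ) = ρ) (hρ : ρ ∈ X.Ω) (x : 𝓞 k⟮θ⟯) (B : k[X])
    (hx : (x : k⟮θ⟯) = aeval (IntermediateField.AdjoinSimple.gen k θ) B)
    (hx' : x ∉ (pull (e : k⟮θ⟯ →+* L) (X.P v)).asIdeal) :
    X.ch v (X.len v ρ) (aeval ρ B) = 1 ↔
      IsSquare (Ideal.Quotient.mk (pull (e : k⟮θ⟯ →+* L) (X.P v)).asIdeal x) := by
  classical
  have hnm := X.nm_pull' hv e he hρ
  rw [sq_iff (e : k⟮θ⟯ →+* L) (by rw [hnm]; exact (X.odd_nm hv).pow) x hx', hnm]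
  have h1 : (e : k⟮θ⟯ →+* L) (x : k⟮θ⟯) = aeval ρ B := by
    rw [← he, aeval_algHom_apply, ← hx]
    rfl
  rw [h1]
  unfold ch
  split_ifs with h
  · exact ⟨fun _ => h, fun _ => rfl⟩
  · exact ⟨fun h' => absurd h' (by decide), fun h' => absurd h' h⟩

end Ctx

theorem wt_le {h : ℕ} (hh : 3 ≤ h) {ε w : ℝ} (hε : 0 < ε) (hw : (h : ℝ) ^ (-(1 / 4) : ℝ) ≤ w) :
    (Nat.sqrt h : ℝ) ≤ 4 * (w * (h / Real.log h ^ (1 - ε))) := by
  have hh' : (3 : ℝ) ≤ h := by exact_mod_cast hh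
  have h0 : (0 : ℝ) < h := by linarith
  have hlog : 1 ≤ Real.log h := by
    rw [Real.le_log_iff_exp_le h0]
    exact (Real.exp_one_lt_d9.le.trans (by norm_num)).trans hh'
  have hpos : 0 < Real.log h ^ (1 - ε) := Real.rpow_pos_of_pos (by linarith) _
  have h1 : Real.log h ^ (1 - ε) ≤ 4 * (h : ℝ) ^ (1 / 4 : ℝ) := by
    calc Real.log h ^ (1 - ε) ≤ Real.log h ^ (1 : ℝ) :=
          Real.rpow_le_rpow_of_exponent_le hlog (by linarith)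
      _ = Real.log h := Real.rpow_one _
      _ ≤ (h : ℝ) ^ (1 / 4 : ℝ) / (1 / 4) := Real.log_le_rpow_div h0.le (by norm_num)
      _ = 4 * (h : ℝ) ^ (1 / 4 : ℝ) := by ring
  have h2 : (h : ℝ) / (4 * (h : ℝ) ^ (1 / 4 : ℝ)) ≤ h / Real.log h ^ (1 - ε) :=
    div_le_div_of_nonneg_left h0.le hpos h1
  have h3 : (h : ℝ) ^ (-(1 / 4) : ℝ) * (h / (4 * (h : ℝ) ^ (1 / 4 : ℝ))) ≤
      w * (h / Real.log h ^ (1 - ε)) :=
    mul_le_mul hw h2 (by positivity) ((by positivity : (0 : ℝ) ≤ (h : ℝ) ^ (-(1 / 4) : ℝ)).trans hw)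
  have h4 : (h : ℝ) ^ (-(1 / 4) : ℝ) * (h / (4 * (h : ℝ) ^ (1 / 4 : ℝ))) = (h : ℝ) ^ (1 / 2 : ℝ) / 4 := by
    have e1 : (h : ℝ) ^ (-(1 / 4) : ℝ) = ((h : ℝ) ^ (1 / 4 : ℝ))⁻¹ := Real.rpow_neg h0.le _
    have e2 : (h : ℝ) = ((h : ℝ) ^ (1 / 4 : ℝ)) ^ 4 := by
      rw [← Real.rpow_natCast, ← Real.rpow_mul h0.le]
      norm_num
    have e3 : (h : ℝ) ^ (1 / 2 : ℝ) = ((h : ℝ) ^ (1 / 4 : ℝ)) ^ 2 := by
      rw [← Real.rpow_natCast, ← Real.rpow_mul h0.le]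
      norm_num
    have e4 : (0 : ℝ) < (h : ℝ) ^ (1 / 4 : ℝ) := Real.rpow_pos_of_pos h0 _
    rw [e1, e3]
    generalize (h : ℝ) ^ (1 / 4 : ℝ) = y at *
    rw [e2]
    field_simp
  have h5 : (Nat.sqrt h : ℝ) ≤ (h : ℝ) ^ (1 / 2 : ℝ) := by
    rw [← Real.sqrt_eq_rpow]
    exact Real.nat_sqrt_le_real_sqrt
  rw [h4] at h3
  linarith

/-- The main estimate for one class and large `h`. -/
theorem main_est {k L : Type} [Field k] [NumberField k] [Field L] [NumberField L] [Algebra k L]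
    [IsGalois k L] {f : k[X]} (X : Ctx k L f) {θ : L} (hθ : θ ∈ X.Ω) {C : ℝ} {A : ℕ} {ε : ℝ} {h : ℕ}
    (hB : ∀ MM : Finset (Pr k⟮θ⟯),
      (∀ q ∈ MM, Odd (nm q)) → (∏ q ∈ MM, nm q) ^ A ≤ h → ∀ η : Pr k⟮θ⟯ → Prop,
      ∀ T : Finset (𝓞 k⟮θ⟯),
        (∀ x ∈ T, (∀ φ : k⟮θ⟯ →+* ℂ, ‖φ x‖ ≤ X.K * (h : ℝ) ^ ((1 : ℝ) / Module.finrank ℚ k⟮θ⟯)) ∧
          (∃ a ℓ : ℕ, ℓ.Prime ∧ h ≤ ℓ ^ 2 ∧ a ≠ 0 ∧ (a : ℝ) ≤ X.K ∧
            Ideal.absNorm (Ideal.span {x}) = a * ℓ) ∧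
          ∀ q ∈ MM, x ∉ q.asIdeal ∧ (IsSquare (Ideal.Quotient.mk q.asIdeal x) ↔ η q)) →
        (T.card : ℝ) ≤ C * (1 / 2) ^ MM.card * (h / Real.log h ^ (1 - ε)))
    (hK : X.K ^ 2 < h) (m : Finset (Pr k)) (hm : ∀ p ∈ m, Gd X.M p) (I : Pr k → Finset L)
    (hI : ∀ p ∈ m, ∀ ρ ∈ I p, ρ ∈ X.R p ∧ minpoly k ρ = minpoly k θ) (t : Pr k → L → ℤˣ)
    (hmA : (∏ p ∈ m, nm p) ^ (X.Ω.card ^ 2 * A) ≤ h)
    (S : Finset (Pr k)) (hS : ∀ Q ∈ S, Gd X.M Q ∧ Q ∉ m ∧ nm Q ≤ h ∧ (nm Q).Prime ∧ h ≤ nm Q ^ 2 ∧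
      ∃ o ∈ X.Fx Q, minpoly k o = minpoly k θ ∧ ∀ p ∈ m, ∀ ρ ∈ I p,
        X.ch p (X.len p ρ) (aeval ρ (X.B Q o)) = t p ρ) :
    (S.card : ℝ) ≤ Module.finrank ℚ k *
      (C * (∏ p ∈ m, (1 / 2 : ℝ) ^ (I p).card) * (h / Real.log h ^ (1 - ε))) := by
  classical
  -- the embeddings
  have hem : ∀ ρ : L, ∃ e : k⟮θ⟯ →ₐ[k] L, minpoly k ρ = minpoly k θ →
      e (IntermediateField.AdjoinSimple.gen k θ) = ρ := by
    intro ρ
    by_cases h1 : minpoly k ρ = minpoly k θ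
    · obtain ⟨e, he⟩ := exists_emb h1
      exact ⟨e, fun _ => he⟩
    · exact ⟨IntermediateField.val _, fun h2 => absurd h2 h1⟩
  choose e he using hem
  let Sg : Finset (Σ _ : Pr k, L) := m.sigma I
  let q : (Σ _ : Pr k, L) → Pr k⟮θ⟯ := fun s => pull (e s.2 : k⟮θ⟯ →+* L) (X.P s.1)
  have hq : ∀ s, q s = pull (e s.2 : k⟮θ⟯ →+* L) (X.P s.1) := fun s => rfl
  have hSg : ∀ s ∈ Sg, s.1 ∈ m ∧ s.2 ∈ I s.1 := fun s hs => Finset.mem_sigma.1 hs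
  have hinj : Set.InjOn q Sg := by
    rintro ⟨p, ρ⟩ hs ⟨p', ρ'⟩ hs' hqq
    obtain ⟨h1, h2⟩ := hSg _ hs
    obtain ⟨h1', h2'⟩ := hSg _ hs'
    dsimp only at h1 h2 h1' h2'
    have hpp : p = p' := by
      apply HeightOneSpectrum.ext
      rw [← pull_comap (X.comap p) (e ρ), ← pull_comap (X.comap p') (e ρ')]
      have : pull (e ρ : k⟮θ⟯ →+* L) (X.P p) = pull (e ρ' : k⟮θ⟯ →+* L) (X.P p') := hqq
      rw [this]
    subst hpp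
    obtain ⟨h3, h4⟩ := hI p h1 ρ h2
    obtain ⟨h3', h4'⟩ := hI p h1 ρ' h2'
    have := X.pull_inj (hm p h1) (e ρ) (e ρ') (he ρ h4) (he ρ' h4') h3 h3' hqq
    rw [this]
  have hnq : ∀ s ∈ Sg, nm (q s) = nm s.1 ^ X.len s.1 s.2 := by
    intro s hs
    obtain ⟨h1, h2⟩ := hSg _ hs
    obtain ⟨h3, h4⟩ := hI s.1 h1 s.2 h2
    exact X.nm_pull' (hm _ h1) (e s.2) (he _ h4) (X.R_sub _ h3)
  let MM : Finset (Pr k⟮θ⟯) := Sg.image q
  have hcard : MM.card = ∑ p ∈ m, (I p).card := by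
    rw [Finset.card_image_of_injOn hinj, Finset.card_sigma]
  have hodd : ∀ y ∈ MM, Odd (nm y) := by
    intro y hy
    obtain ⟨s, hs, rfl⟩ := Finset.mem_image.1 hy
    rw [hnq s hs]
    exact (X.odd_nm (hm _ (hSg _ hs).1)).pow
  have hprod : ∏ y ∈ MM, nm y ≤ (∏ p ∈ m, nm p) ^ (X.Ω.card ^ 2) := by
    rw [Finset.prod_image hinj, Finset.prod_sigma, ← Finset.prod_pow]
    refine Finset.prod_le_prod' fun p hp => ?_
    have hp1 : 1 ≤ nm p := (nm_two p).trans' one_le_two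
    calc ∏ ρ ∈ I p, nm (q ⟨p, ρ⟩) ≤ ∏ ρ ∈ I p, nm p ^ X.Ω.card := by
          refine Finset.prod_le_prod' fun ρ hρ => ?_
          rw [hnq ⟨p, ρ⟩ (Finset.mem_sigma.2 ⟨hp, hρ⟩)]
          exact Nat.pow_le_pow_right hp1 (X.len_le p (X.R_sub p (hI p hp ρ hρ).1))
      _ = (nm p ^ X.Ω.card) ^ (I p).card := by rw [Finset.prod_const]
      _ ≤ (nm p ^ X.Ω.card) ^ X.Ω.card := by
          refine Nat.pow_le_pow_right (Nat.one_le_pow _ _ hp1) ?_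
          exact (Finset.card_le_card fun ρ hρ => (hI p hp ρ hρ).1).trans (X.R_card p)
      _ = nm p ^ X.Ω.card ^ 2 := by rw [← pow_mul, sq]
  have hprodA : (∏ y ∈ MM, nm y) ^ A ≤ h := by
    refine (Nat.pow_le_pow_left hprod A).trans ?_
    rw [← pow_mul]
    exact hmA
  -- the elements
  have hx : ∀ Q ∈ S, ∃ x : 𝓞 k⟮θ⟯,
      (∀ φ : k⟮θ⟯ →+* ℂ, ‖φ x‖ ≤ X.K * (h : ℝ) ^ ((1 : ℝ) / Module.finrank ℚ k⟮θ⟯)) ∧
      (∃ a : ℕ, a ≠ 0 ∧ (a : ℝ) ≤ X.K ∧ Ideal.absNorm (Ideal.span {x}) = a * nm Q) ∧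
      ∀ s ∈ Sg, x ∉ (q s).asIdeal ∧ (IsSquare (Ideal.Quotient.mk (q s).asIdeal x) ↔
        t s.1 s.2 = 1) := by
    intro Q hQ
    obtain ⟨h1, h2, h3, h4, h5, o, ho, hmin, ho2⟩ := hS Q hQ
    obtain ⟨x, hx1, hx2, hx3, hx4⟩ := X.exists_x hθ h1 ho hmin
    refine ⟨x, fun φ => (hx2 φ).trans ?_, hx3, fun s hs => ?_⟩
    · refine mul_le_mul_of_nonneg_left ?_ (zero_le_one.trans X.hK)
      exact Real.rpow_le_rpow (Nat.cast_nonneg _) (by exact_mod_cast h3) (by positivity)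
    · obtain ⟨hs1, hs2⟩ := hSg s hs
      obtain ⟨hs3, hs4⟩ := hI s.1 hs1 s.2 hs2
      have hne : s.1 ≠ Q := fun h' => h2 (h' ▸ hs1)
      have hx5 := hx4 s.1 (hm _ hs1) hne (e s.2)
      refine ⟨hx5, ?_⟩
      rw [hq, ← X.ch_iff (hm _ hs1) (e s.2) (he _ hs4) (X.R_sub _ hs3) x (X.B Q o) hx1 hx5,
        ho2 s.1 hs1 s.2 hs2]
  choose! x hx1 hx2 hx3 using hx
  have hT := hB MM hodd hprodA (fun y => ∃ s ∈ Sg, q s = y ∧ t s.1 s.2 = 1) (S.image x) (by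
    intro y hy
    obtain ⟨Q, hQ, rfl⟩ := Finset.mem_image.1 hy
    obtain ⟨h1, h2, h3, h4, h5, -⟩ := hS Q hQ
    refine ⟨hx1 Q hQ, ?_, ?_⟩
    · obtain ⟨a, ha, haK, han⟩ := hx2 Q hQ
      exact ⟨a, nm Q, h4, h5, ha, haK, han⟩
    · intro y hy
      obtain ⟨s, hs, rfl⟩ := Finset.mem_image.1 hy
      obtain ⟨h6, h7⟩ := hx3 Q hQ s hs
      refine ⟨h6, h7.trans ⟨fun h8 => ⟨s, hs, rfl, h8⟩, ?_⟩⟩
      rintro ⟨s', hs', hss, h8⟩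
      rwa [hinj hs' hs hss] at h8)
  -- the fibres
  have hfib := Finset.card_le_mul_card_image (f := x) S (Module.finrank ℚ k) (by
    intro y hy
    obtain ⟨Q₀, hQ₀, rfl⟩ := Finset.mem_image.1 hy
    obtain ⟨-, -, -, h4, h5, -⟩ := hS Q₀ hQ₀
    refine card_over h4 _ fun Q hQ => ?_
    obtain ⟨hQS, hxx⟩ := Finset.mem_filter.1 hQ
    obtain ⟨-, -, -, h4', h5', -⟩ := hS Q hQS
    obtain ⟨a, ha, haK, han⟩ := hx2 Q₀ hQ₀
    obtain ⟨a', ha', haK', han'⟩ := hx2 Q hQS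
    rw [hxx, han] at han'
    have hlt : ∀ (b : ℕ) (Q : Pr k), (b : ℝ) ≤ X.K → h ≤ nm Q ^ 2 → b < nm Q := by
      intro b Q hb hQ
      have h1 : (b : ℝ) ^ 2 < (nm Q : ℝ) ^ 2 := by
        calc (b : ℝ) ^ 2 ≤ X.K ^ 2 := pow_le_pow_left₀ (Nat.cast_nonneg _) hb 2
          _ < h := hK
          _ ≤ (nm Q : ℝ) ^ 2 := by exact_mod_cast hQ
      have h2 : b ^ 2 < nm Q ^ 2 := by exact_mod_cast h1
      exact lt_of_pow_lt_pow_left₀ 2 (Nat.zero_le _) h2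
    have hdvd : nm Q₀ ∣ a' * nm Q := han' ▸ Dvd.intro_left a rfl
    have heq : nm Q₀ = nm Q := by
      rcases (Nat.Prime.dvd_mul h4).1 hdvd with h6 | h6
      · exact absurd (Nat.le_of_dvd (Nat.pos_of_ne_zero ha') h6) (not_le.2 (hlt a' Q₀ haK' h5))
      · exact (Nat.prime_dvd_prime_iff_eq h4 h4').1 h6
    rw [heq]
    exact Ideal.absNorm_mem Q.asIdeal)
  have h1 : (S.card : ℝ) ≤ Module.finrank ℚ k * (S.image x).card := by exact_mod_cast hfib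
  refine h1.trans (mul_le_mul_of_nonneg_left ?_ (Nat.cast_nonneg _))
  rwa [hcard, ← Finset.prod_pow_eq_pow_sum] at hT

end Pool.Agent.HG
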