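import Pool.Agent.Helper97.HG.Res

/-!
# HG, block G2, part 3: counting primes
-/

set_option autoImplicit false

namespace Pool.Agent.HG

open Polynomial NumberField IsDedekindDomain
open scoped Pointwise IntermediateField

variable {k : Type} [Field k] [NumberField k]

set_option linter.deprecated false in
theorem card_over {p : ℕ} (hp : p.Prime) (S : Finset (Pr k)) (hS : ∀ v ∈ S, (p : 𝓞 k) ∈ v.asIdeal) :
    S.card ≤ Module.finrank ℚ k := by
  classical
  have hp' : Prime (p : ℤ) := Nat.prime_iff_prime_int.1 hp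
  have hmax : (Ideal.span {(p : ℤ)}).IsMaximal := by
    have h1 : (Ideal.span {(p : ℤ)}).IsPrime := (Ideal.span_singleton_prime hp'.ne_zero).2 hp'
    exact h1.isMaximal (by rw [Ne, Ideal.span_singleton_eq_bot]; exact hp'.ne_zero)
  have h0 : Ideal.span {(p : ℤ)} ≠ ⊥ := by
    rw [Ne, Ideal.span_singleton_eq_bot]
    exact hp'.ne_zero
  have hinj : Function.Injective (HeightOneSpectrum.asIdeal (R := 𝓞 k)) := fun v w h =>
    HeightOneSpectrum.ext h
  rw [← Finset.card_image_of_injective S hinj]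
  refine le_trans (Finset.card_le_card ?_)
    (Ideal.card_primesOverFinset_le_finrank (R := ℤ) (S := 𝓞 k) ℚ k h0)
  intro J hJ
  obtain ⟨v, hv, rfl⟩ := Finset.mem_image.1 hJ
  rw [IsDedekindDomain.mem_primesOverFinset_iff h0]
  refine ⟨v.isPrime, ⟨?_⟩⟩
  refine hmax.eq_of_le ?_ ?_
  · have := v.isPrime
    exact (Ideal.IsPrime.under ℤ v.asIdeal).ne_top
  · rw [Ideal.span_singleton_le_iff_mem, Ideal.under_def, Ideal.mem_comap, map_natCast]
    exact hS v hv

theorem nm_pow97 {p : ℕ} (hp : p.Prime) {v : Pr k} (hv : (p : 𝓞 k) ∈ v.asIdeal) :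
    ∃ f : ℕ, f ≠ 0 ∧ nm v = p ^ f := by
  have h1 := Ideal.absNorm_dvd_norm_of_mem hv
  have h2 : Algebra.norm ℤ (p : 𝓞 k) = (p : ℤ) ^ Module.finrank ℚ k := by
    have h3 : (Algebra.norm ℤ (p : 𝓞 k) : ℚ) = ((p : ℤ) ^ Module.finrank ℚ k : ℤ) := by
      rw [Algebra.coe_norm_int]
      push_cast
      have := Algebra.norm_algebraMap (R := ℚ) (S := k) (p : ℚ)
      rwa [map_natCast] at this
    exact_mod_cast h3
  rw [h2] at h1
  have h3 : nm v ∣ p ^ Module.finrank ℚ k := by exact_mod_cast h1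
  obtain ⟨f, _, hf⟩ := (Nat.dvd_prime_pow hp).1 h3
  refine ⟨f, ?_, hf⟩
  rintro rfl
  rw [pow_zero] at hf
  have h4 : Ideal.absNorm v.asIdeal = 1 := hf
  rw [Ideal.absNorm_eq_one_iff] at h4
  exact v.isPrime.ne_top h4

theorem nm_two (v : Pr k) : 2 ≤ nm v := by
  obtain ⟨p, hp, hv⟩ := exists_prime v
  obtain ⟨f, hf, h⟩ := nm_pow97 hp hv
  rw [h]
  exact hp.two_le.trans (Nat.le_self_pow hf p)

theorem card_le_of_prime_le (S : Finset (Pr k)) (b : ℕ)
    (hS : ∀ v ∈ S, ∀ p : ℕ, p.Prime → (p : 𝓞 k) ∈ v.asIdeal → p ≤ b) :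
    S.card ≤ Module.finrank ℚ k * b := by
  classical
  choose! p hp hpv using fun v : Pr k => exists_prime v
  have h1 : ∀ v ∈ S, p v ∈ Finset.Icc 1 b := fun v hv =>
    Finset.mem_Icc.2 ⟨(hp v).one_lt.le, hS v hv _ (hp v) (hpv v)⟩
  have h2 := Finset.card_le_mul_card_image_of_maps_to h1 (Module.finrank ℚ k) (by
    intro q hq
    rcases (Finset.filter (fun v => p v = q) S).eq_empty_or_nonempty with h | ⟨v, hv⟩
    · rw [h]; simp
    · have hqp : q.Prime := by
        rw [← (Finset.mem_filter.1 hv).2]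
        exact hp v
      refine card_over hqp _ fun w hw => ?_
      rw [← (Finset.mem_filter.1 hw).2]
      exact hpv w)
  rwa [Nat.card_Icc, Nat.add_sub_cancel] at h2

theorem card_all (S : Finset (Pr k)) (h : ℕ) (hS : ∀ v ∈ S, nm v ≤ h) :
    S.card ≤ Module.finrank ℚ k * h := by
  refine card_le_of_prime_le S h fun v hv p hp hpv => ?_
  obtain ⟨f, hf, he⟩ := nm_pow97 hp hpv
  exact (Nat.le_self_pow hf p).trans (he ▸ hS v hv)

theorem card_small (S : Finset (Pr k)) (h : ℕ) (hS : ∀ v ∈ S, nm v ≤ h)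
    (hS' : ∀ v ∈ S, (nm v).Prime → nm v ^ 2 < h) :
    S.card ≤ Module.finrank ℚ k * Nat.sqrt h := by
  refine card_le_of_prime_le S _ fun v hv p hp hpv => ?_
  obtain ⟨f, hf, he⟩ := nm_pow97 hp hpv
  rw [Nat.le_sqrt']
  by_cases h1 : f = 1
  · subst h1
    rw [pow_one] at he
    rw [← he]
    exact (hS' v hv (by rw [he]; exact hp)).le
  · have : 2 ≤ f := by omega
    exact (Nat.pow_le_pow_right hp.one_lt.le this).trans (he ▸ hS v hv)

end Pool.Agent.HG
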