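import Pool.Agent.Helper13.HG.Ctx

/-!
# HG, block G2, part 1: finite fields, the prime below `P` along an embedding
-/

set_option autoImplicit false

namespace Pool.Agent.HG

open Polynomial NumberField IsDedekindDomain
open scoped Pointwise IntermediateField

theorem ff {κ A B : Type} [Field κ] [Field A] [Field B] [Finite κ] [Finite A]
    (f : κ →+* A) (e e' : A →+* B) (h : e.comp f = e'.comp f) :
    ∃ i : ℕ, ∀ z, e' z = e z ^ Nat.card κ ^ i := by
  classical
  have := Fintype.ofFinite κ
  let _ := f.toAlgebra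
  let _ : Algebra A B := e.toAlgebra
  let _ : Algebra κ B := (e.comp f).toAlgebra
  have : IsScalarTower κ A B := IsScalarTower.of_algebraMap_eq fun _ => rfl
  let E' : A →ₐ[κ] B := { e' with commutes' := fun r => (RingHom.congr_fun h r).symm }
  obtain ⟨n, hn⟩ := (FiniteField.bijective_frobeniusAlgEquivOfAlgebraic_pow κ A).2
    (Normal.algHomEquivAut κ B A E')
  refine ⟨n, fun z => ?_⟩
  have h1 : E' = (Normal.algHomEquivAut κ B A).symm (Normal.algHomEquivAut κ B A E') :=
    (Equiv.symm_apply_apply _ _).symm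
  have h2 : E' z = e (Normal.algHomEquivAut κ B A E' z) := by
    conv_lhs => rw [h1]
    rfl
  change E' z = _
  rw [h2, ← hn]
  dsimp only
  rw [AlgEquiv.coe_pow, FiniteField.coe_frobeniusAlgEquivOfAlgebraic_iterate, map_pow,
    Nat.card_eq_fintype_card]

section pull

variable {E L : Type} [Field E] [NumberField E] [Field L] [NumberField L]

/-- the prime of `E` below `P` along `e` -/
noncomputable def pull (e : E →+* L) (P : Pr L) : Pr E where
  asIdeal := P.asIdeal.comap (RingOfIntegers.mapRingHom e)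
  isPrime := by
    have := P.isPrime
    exact Ideal.comap_isPrime _ _
  ne_bot := by
    obtain ⟨p, hp, hP⟩ := exists_prime P
    intro h
    have h1 : (p : 𝓞 E) ∈ P.asIdeal.comap (RingOfIntegers.mapRingHom e) := by
      rw [Ideal.mem_comap, map_natCast]
      exact hP
    rw [h, Ideal.mem_bot, Nat.cast_eq_zero] at h1
    exact hp.ne_zero h1

theorem mem_pull (e : E →+* L) (P : Pr L) (a : 𝓞 E) :
    a ∈ (pull e P).asIdeal ↔ RingOfIntegers.mapRingHom e a ∈ P.asIdeal := Iff.rfl

theorem pull_le (e : E →+* L) (P : Pr L) {z : E} (hz : (pull e P).valuation E z ≤ 1) :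
    P.valuation L (e z) ≤ 1 := by
  obtain ⟨a, b, hb, hab⟩ := exists_frac _ hz
  have h1 : e z * ((RingOfIntegers.mapRingHom e b : 𝓞 L) : L) =
      ((RingOfIntegers.mapRingHom e a : 𝓞 L) : L) := by
    rw [RingOfIntegers.mapRingHom_apply, RingOfIntegers.mapRingHom_apply, ← hab, map_mul]
  have h2 : P.valuation L ((RingOfIntegers.mapRingHom e b : 𝓞 L) : L) = 1 := by
    rw [val_int_one, ← mem_pull]
    exact hb
  have h3 := congrArg (P.valuation L) h1
  rw [map_mul, h2, mul_one] at h3
  rw [h3]
  exact val_int _ _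

theorem pull_lt (e : E →+* L) (P : Pr L) {z : E} (hz : (pull e P).valuation E z < 1) :
    P.valuation L (e z) < 1 := by
  obtain ⟨a, b, hb, hab⟩ := exists_frac _ hz.le
  have h1 : e z * ((RingOfIntegers.mapRingHom e b : 𝓞 L) : L) =
      ((RingOfIntegers.mapRingHom e a : 𝓞 L) : L) := by
    rw [RingOfIntegers.mapRingHom_apply, RingOfIntegers.mapRingHom_apply, ← hab, map_mul]
  have h2 : P.valuation L ((RingOfIntegers.mapRingHom e b : 𝓞 L) : L) = 1 := by
    rw [val_int_one, ← mem_pull]
    exact hb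
  have h3 := congrArg (P.valuation L) h1
  rw [map_mul, h2, mul_one] at h3
  rw [h3, val_int_lt, ← mem_pull, ← val_int_lt, ← hab, map_mul]
  exact mul_lt_one_of_lt_of_le hz (val_int _ _)

theorem pull_le_iff (e : E →+* L) (P : Pr L) (z : E) :
    (pull e P).valuation E z ≤ 1 ↔ P.valuation L (e z) ≤ 1 := by
  refine ⟨pull_le e P, fun h => ?_⟩
  by_contra h'
  rw [not_le] at h'
  have h0 : z ≠ 0 := by
    rintro rfl
    rw [map_zero] at h'
    exact absurd h' (by simp)
  have h1 : (pull e P).valuation E z⁻¹ < 1 := by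
    rw [map_inv₀]
    exact inv_lt_one_of_one_lt₀ h'
  have h2 := pull_lt e P h1
  rw [map_inv₀, map_inv₀] at h2
  have h3 : P.valuation L (e z) ≠ 0 := val_ne_zero P ((map_ne_zero e).2 h0)
  have h4 : 1 < P.valuation L (e z) := by
    rw [inv_lt_one₀ (zero_lt_iff.2 h3)] at h2
    exact h2
  exact absurd h (not_le.2 h4)

end pull

end Pool.Agent.HG
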