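import Pool.Agent.Helper97.HG.Pull

/-!
# HG, block G2, part 2: residue fields
-/

set_option autoImplicit false

namespace Pool.Agent.HG

open Polynomial NumberField IsDedekindDomain
open scoped Pointwise IntermediateField

theorem fin_quot {k : Type} [Field k] [NumberField k] (v : Pr k) : Finite (𝓞 k ⧸ v.asIdeal) :=
  Ideal.finiteQuotientOfFreeOfNeBot _ v.ne_bot

theorem card_quot {k : Type} [Field k] [NumberField k] (v : Pr k) :
    Nat.card (𝓞 k ⧸ v.asIdeal) = nm v := rfl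

section frob

variable {k L : Type} [Field k] [NumberField k] [Field L] [NumberField L] [Algebra k L]
  {v : Pr k} {P : Pr L} {F : L ≃ₐ[k] L}

theorem frob_iter (stab : ∀ a : 𝓞 L, a ∈ P.asIdeal ↔ F • a ∈ P.asIdeal)
    (frob : ∀ z : L, P.valuation L z ≤ 1 → P.valuation L (F z - z ^ nm v) < 1) (i : ℕ) {z : L}
    (hz : P.valuation L z ≤ 1) : P.valuation L (F^[i] z - z ^ nm v ^ i) < 1 := by
  induction i with
  | zero => simp
  | succ i ih =>
    have h1 : F^[i + 1] z - z ^ nm v ^ (i + 1) = F (F^[i] z - z ^ nm v ^ i) +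
        (F (z ^ nm v ^ i) - (z ^ nm v ^ i) ^ nm v) := by
      rw [Function.iterate_succ_apply', map_sub, pow_succ, pow_mul]
      ring
    rw [h1]
    refine Valuation.map_add_lt _ ((val_lt_conj stab _).1 ih) (frob _ ?_)
    rw [map_pow]
    exact pow_le_one' hz _

omit [NumberField k] [NumberField L] in
theorem iter_sub (F : L ≃ₐ[k] L) (j : ℕ) (w w' : L) : F^[j] (w - w') = F^[j] w - F^[j] w' := by
  induction j with
  | zero => rfl
  | succ j ih => rw [Function.iterate_succ_apply', Function.iterate_succ_apply',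
      Function.iterate_succ_apply', ih, map_sub]

theorem iter_lt (stab : ∀ a : 𝓞 L, a ∈ P.asIdeal ↔ F • a ∈ P.asIdeal) (j : ℕ) (w : L)
    (hw : P.valuation L w < 1) : P.valuation L (F^[j] w) < 1 := by
  induction j with
  | zero => exact hw
  | succ j ih =>
    rw [Function.iterate_succ_apply']
    exact (val_lt_conj stab _).1 ih

end frob

section deg

variable {k E L : Type} [Field k] [NumberField k] [Field E] [NumberField E] [Field L] [NumberField L]
  [Algebra k E] [Algebra k L] {v : Pr k} {P : Pr L} {F : L ≃ₐ[k] L}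

omit [NumberField k] in
theorem mapRingHom_algebraMap (e : E →ₐ[k] L) (a : 𝓞 k) :
    RingOfIntegers.mapRingHom (e : E →+* L) (algebraMap (𝓞 k) (𝓞 E) a) = algebraMap (𝓞 k) (𝓞 L) a := by
  apply RingOfIntegers.ext
  rw [RingOfIntegers.mapRingHom_apply]
  change e (algebraMap k E (a : k)) = algebraMap k L (a : k)
  exact e.commutes _

theorem pull_comap (h : P.asIdeal.comap (algebraMap (𝓞 k) (𝓞 L)) = v.asIdeal) (e : E →ₐ[k] L) :
    (pull (e : E →+* L) P).asIdeal.comap (algebraMap (𝓞 k) (𝓞 E)) = v.asIdeal := by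
  rw [← h]
  ext a
  rw [Ideal.mem_comap, mem_pull, mapRingHom_algebraMap, Ideal.mem_comap]

theorem pull_eq (h : P.asIdeal.comap (algebraMap (𝓞 k) (𝓞 L)) = v.asIdeal)
    (stab : ∀ a : 𝓞 L, a ∈ P.asIdeal ↔ F • a ∈ P.asIdeal)
    (frob : ∀ z : L, P.valuation L z ≤ 1 → P.valuation L (F z - z ^ nm v) < 1)
    (e e' : E →ₐ[k] L) (he : pull (e : E →+* L) P = pull (e' : E →+* L) P) :
    ∃ i : ℕ, ∀ z : E, (pull (e : E →+* L) P).valuation E z ≤ 1 →
      P.valuation L (e' z - F^[i] (e z)) < 1 := by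
  set q := pull (e : E →+* L) P with hq
  have hv := v.isMaximal
  have hqm := q.isMaximal
  have hPm := P.isMaximal
  let _ := Ideal.Quotient.field v.asIdeal
  let _ := Ideal.Quotient.field q.asIdeal
  let _ := Ideal.Quotient.field P.asIdeal
  have := fin_quot v
  have := fin_quot q
  let f : 𝓞 k ⧸ v.asIdeal →+* 𝓞 E ⧸ q.asIdeal := Ideal.quotientMap q.asIdeal
    (algebraMap (𝓞 k) (𝓞 E)) (by rw [hq, pull_comap h e])
  let e1 : 𝓞 E ⧸ q.asIdeal →+* 𝓞 L ⧸ P.asIdeal := Ideal.quotientMap P.asIdeal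
    (RingOfIntegers.mapRingHom (e : E →+* L)) (by rw [hq]; exact le_rfl)
  let e2 : 𝓞 E ⧸ q.asIdeal →+* 𝓞 L ⧸ P.asIdeal := Ideal.quotientMap P.asIdeal
    (RingOfIntegers.mapRingHom (e' : E →+* L)) (by rw [he]; exact le_rfl)
  have m1 : ∀ a, e1 (Ideal.Quotient.mk q.asIdeal a) =
      Ideal.Quotient.mk P.asIdeal (RingOfIntegers.mapRingHom (e : E →+* L) a) := fun a => rfl
  have m2 : ∀ a, e2 (Ideal.Quotient.mk q.asIdeal a) =
      Ideal.Quotient.mk P.asIdeal (RingOfIntegers.mapRingHom (e' : E →+* L) a) := fun a => rfl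
  have m3 : ∀ a, f (Ideal.Quotient.mk v.asIdeal a) =
      Ideal.Quotient.mk q.asIdeal (algebraMap (𝓞 k) (𝓞 E) a) := fun a => rfl
  clear_value e1 e2 f
  obtain ⟨i, hi⟩ := ff f e1 e2 (by
    apply Ideal.Quotient.ringHom_ext
    ext a
    rw [RingHom.comp_apply, RingHom.comp_apply, RingHom.comp_apply, RingHom.comp_apply, m3, m1, m2,
      mapRingHom_algebraMap, mapRingHom_algebraMap])
  rw [card_quot] at hi
  have key : ∀ a : 𝓞 E, P.valuation L (e' (a : E) - F^[i] (e (a : E))) < 1 := by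
    intro a
    have h1 := hi (Ideal.Quotient.mk q.asIdeal a)
    rw [m1, m2, ← map_pow, Ideal.Quotient.eq, ← val_int_lt] at h1
    have h2 := frob_iter stab frob i (z := e (a : E)) (val_int P (RingOfIntegers.mapRingHom (e : E →+* L) a))
    have h3 : e' (a : E) - F^[i] (e (a : E)) =
        ((RingOfIntegers.mapRingHom (e' : E →+* L) a - RingOfIntegers.mapRingHom (e : E →+* L) a ^
          nm v ^ i : 𝓞 L) : L) - (F^[i] (e (a : E)) - e (a : E) ^ nm v ^ i) := by
      have m4 : ((RingOfIntegers.mapRingHom (e' : E →+* L) a : 𝓞 L) : L) = e' (a : E) := rfl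
      have m5 : ((RingOfIntegers.mapRingHom (e : E →+* L) a : 𝓞 L) : L) = e (a : E) := rfl
      rw [← m4, ← m5]
      push_cast
      ring
    rw [h3, sub_eq_add_neg]
    refine Valuation.map_add_lt _ h1 ?_
    rw [Valuation.map_neg]
    exact h2
  refine ⟨i, fun z hz => ?_⟩
  obtain ⟨a, ha⟩ := exists_int_sub q hz
  have h1 := key a
  have h2 : P.valuation L (e ((a : E) - z)) < 1 := pull_lt (e : E →+* L) P ha
  have h3 : P.valuation L (e' ((a : E) - z)) < 1 := pull_lt (e' : E →+* L) P (by rw [← he]; exact ha)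
  have h4 := iter_lt stab
  have h6 := iter_sub F
  have h5 : e' z - F^[i] (e z) = (e' (a : E) - F^[i] (e (a : E))) + (F^[i] (e ((a : E) - z)) -
      e' ((a : E) - z)) := by
    rw [map_sub, map_sub, h6]
    ring
  rw [h5]
  refine Valuation.map_add_lt _ h1 ?_
  rw [sub_eq_add_neg]
  refine Valuation.map_add_lt _ (h4 i _ h2) ?_
  rw [Valuation.map_neg]
  exact h3

theorem nm_pull (h : P.asIdeal.comap (algebraMap (𝓞 k) (𝓞 L)) = v.asIdeal)
    (stab : ∀ a : 𝓞 L, a ∈ P.asIdeal ↔ F • a ∈ P.asIdeal)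
    (frob : ∀ z : L, P.valuation L z ≤ 1 → P.valuation L (F z - z ^ nm v) < 1)
    (e : E →ₐ[k] L) (n : ℕ) (hn : ∀ z : E, F^[n] (e z) = e z)
    (hmin : ∀ i : ℕ, (∀ z : E, (pull (e : E →+* L) P).valuation E z ≤ 1 →
      P.valuation L (F^[i] (e z) - e z) < 1) → n ∣ i) :
    nm (pull (e : E →+* L) P) = nm v ^ n := by
  classical
  set q := pull (e : E →+* L) P with hq
  have hv := v.isMaximal
  have hqm := q.isMaximal
  have hPm := P.isMaximal
  let _ := Ideal.Quotient.field v.asIdeal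
  let _ := Ideal.Quotient.field q.asIdeal
  let _ := Ideal.Quotient.field P.asIdeal
  have := fin_quot v
  have := fin_quot q
  have := Fintype.ofFinite (𝓞 k ⧸ v.asIdeal)
  have := Fintype.ofFinite (𝓞 E ⧸ q.asIdeal)
  let f : 𝓞 k ⧸ v.asIdeal →+* 𝓞 E ⧸ q.asIdeal := Ideal.quotientMap q.asIdeal
    (algebraMap (𝓞 k) (𝓞 E)) (by rw [hq, pull_comap h e])
  let _ : Algebra (𝓞 k ⧸ v.asIdeal) (𝓞 E ⧸ q.asIdeal) := f.toAlgebra
  let e1 : 𝓞 E ⧸ q.asIdeal →+* 𝓞 L ⧸ P.asIdeal := Ideal.quotientMap P.asIdeal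
    (RingOfIntegers.mapRingHom (e : E →+* L)) (by rw [hq]; exact le_rfl)
  have he1 : Function.Injective e1 := e1.injective
  have hcardv : Fintype.card (𝓞 k ⧸ v.asIdeal) = nm v := by
    rw [← Nat.card_eq_fintype_card, card_quot]
  have hfr : ∀ (i : ℕ) (a : 𝓞 E), (FiniteField.frobeniusAlgHom (𝓞 k ⧸ v.asIdeal) (𝓞 E ⧸ q.asIdeal) ^ i)
      (Ideal.Quotient.mk q.asIdeal a) = Ideal.Quotient.mk q.asIdeal a ↔
      P.valuation L (F^[i] (e (a : E)) - e (a : E)) < 1 := by
    intro i a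
    rw [AlgHom.coe_pow, FiniteField.coe_frobeniusAlgHom, pow_iterate, hcardv]
    have h2 := frob_iter stab frob i (z := e (a : E)) (val_int P (RingOfIntegers.mapRingHom (e : E →+* L) a))
    have h1 : Ideal.Quotient.mk q.asIdeal a ^ nm v ^ i = Ideal.Quotient.mk q.asIdeal a ↔
        P.valuation L (e (a : E) ^ nm v ^ i - e (a : E)) < 1 := by
      rw [← map_pow, Ideal.Quotient.eq, hq, mem_pull, ← val_int_lt]
      have : ((RingOfIntegers.mapRingHom (e : E →+* L) (a ^ nm v ^ i - a) : 𝓞 L) : L) =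
          e (a : E) ^ nm v ^ i - e (a : E) := by
        rw [RingOfIntegers.mapRingHom_apply]
        push_cast
        change e ((a : E) ^ nm v ^ i - (a : E)) = _
        rw [map_sub, map_pow]
      rw [this]
    dsimp only
    rw [h1]
    constructor
    · intro h3
      have : F^[i] (e (a : E)) - e (a : E) = (F^[i] (e (a : E)) - e (a : E) ^ nm v ^ i) +
          (e (a : E) ^ nm v ^ i - e (a : E)) := by ring
      rw [this]
      exact Valuation.map_add_lt _ h2 h3
    · intro h3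
      have : e (a : E) ^ nm v ^ i - e (a : E) = -(F^[i] (e (a : E)) - e (a : E) ^ nm v ^ i) +
          (F^[i] (e (a : E)) - e (a : E)) := by ring
      rw [this]
      refine Valuation.map_add_lt _ ?_ h3
      rw [Valuation.map_neg]
      exact h2
  have hcard : nm q = nm v ^ Module.finrank (𝓞 k ⧸ v.asIdeal) (𝓞 E ⧸ q.asIdeal) := by
    rw [← card_quot, Nat.card_eq_fintype_card,
      Module.card_eq_pow_finrank (K := 𝓞 k ⧸ v.asIdeal) (V := 𝓞 E ⧸ q.asIdeal), hcardv]
  rw [hcard, ← FiniteField.orderOf_frobeniusAlgHom]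
  congr 1
  refine Nat.dvd_antisymm ?_ (hmin _ ?_)
  · rw [orderOf_dvd_iff_pow_eq_one]
    apply AlgHom.ext
    intro z
    obtain ⟨a, rfl⟩ := Ideal.Quotient.mk_surjective z
    rw [AlgHom.one_apply, hfr, hn, sub_self, map_zero]
    exact zero_lt_one
  · intro z hz
    obtain ⟨a, ha⟩ := exists_int_sub q hz
    have h1 := (hfr (orderOf (FiniteField.frobeniusAlgHom (𝓞 k ⧸ v.asIdeal) (𝓞 E ⧸ q.asIdeal))) a).1
      (by rw [pow_orderOf_eq_one, AlgHom.one_apply])
    set i := orderOf (FiniteField.frobeniusAlgHom (𝓞 k ⧸ v.asIdeal) (𝓞 E ⧸ q.asIdeal))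
    have h2 : P.valuation L (e ((a : E) - z)) < 1 := pull_lt (e : E →+* L) P ha
    have h4 := iter_lt stab
    have h6 := iter_sub F
    have h5 : F^[i] (e z) - e z = (F^[i] (e (a : E)) - e (a : E)) + (e ((a : E) - z) -
        F^[i] (e ((a : E) - z))) := by
      rw [map_sub, h6]
      ring
    rw [h5]
    refine Valuation.map_add_lt _ h1 ?_
    rw [sub_eq_add_neg]
    refine Valuation.map_add_lt _ h2 ?_
    rw [Valuation.map_neg]
    exact h4 i _ h2

/-- Euler's criterion -/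
theorem sq_iff (e : E →+* L) (hodd : Odd (nm (pull e P))) (x : 𝓞 E)
    (hx : x ∉ (pull e P).asIdeal) : IsSquare (Ideal.Quotient.mk (pull e P).asIdeal x) ↔
      P.valuation L ((e (x : E)) ^ ((nm (pull e P) - 1) / 2) - 1) < 1 := by
  classical
  set q := pull e P with hq
  have hqm := q.isMaximal
  let _ := Ideal.Quotient.field q.asIdeal
  have := fin_quot q
  have := Fintype.ofFinite (𝓞 E ⧸ q.asIdeal)
  have hcard : Fintype.card (𝓞 E ⧸ q.asIdeal) = nm q := by
    rw [← Nat.card_eq_fintype_card, card_quot]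
  have hchar : ringChar (𝓞 E ⧸ q.asIdeal) ≠ 2 := by
    intro h2
    have h4 := (FiniteField.even_card_iff_char_two (F := 𝓞 E ⧸ q.asIdeal)).1 h2
    rw [hcard] at h4
    obtain ⟨m, hm⟩ := hodd
    omega
  have h0 : Ideal.Quotient.mk q.asIdeal x ≠ 0 := by
    rw [Ne, Ideal.Quotient.eq_zero_iff_mem]
    exact hx
  rw [FiniteField.isSquare_iff hchar h0, hcard]
  have h1 : nm q / 2 = (nm q - 1) / 2 := by
    obtain ⟨m, hm⟩ := hodd
    omega
  rw [h1, ← map_pow, ← map_one (Ideal.Quotient.mk q.asIdeal), Ideal.Quotient.eq, hq, mem_pull,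
    ← val_int_lt, RingOfIntegers.mapRingHom_apply]
  have h2 : e (((x ^ ((nm (pull e P) - 1) / 2) - 1 : 𝓞 E)) : E) =
      e (x : E) ^ ((nm (pull e P) - 1) / 2) - 1 := by
    push_cast
    rw [map_sub, map_pow, map_one]
  rw [h2]

end deg

end Pool.Agent.HG
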